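import Pool.Agent.Run7.h970.LiftMain

set_option autoImplicit false

/-!
# `(r - 1)`-degeneracy of `G` does not give `ex_r(n, G⁺) = O(n ^ (r - 1))`
-/

namespace Pool.Agent.Results.MP_5a6238_co.DegenerateExpansions

open Filter

/-- For every `r ≥ 3` there is a finite `(r - 1)`-degenerate graph whose `r`-uniform expansion has a
Turán number larger than `n ^ (r - 1)` by a power of `n`. -/
theorem result : ∃ ε : ℝ, 0 < ε ∧ ∀ r : ℕ, 3 ≤ r →
    ∃ (V : Type) (_ : Finite V) (G : SimpleGraph V), Run7.h970.Degen (r - 1) G ∧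
      ∀ᶠ n : ℕ in atTop, (n : ℝ) ^ ((r : ℝ) - 1 + ε) ≤ (Run7.h970.exR r G n : ℝ) := by
  refine ⟨1 / 200000, by norm_num, fun r hr => ?_⟩
  obtain ⟨k, rfl⟩ : ∃ k, r = k + 3 := ⟨r - 3, by omega⟩
  obtain ⟨V, hV, G, hG, h⟩ := Run7.h970.power_gap k
  refine ⟨V, hV, G, hG, ?_⟩
  have e : ((k + 3 : ℕ) : ℝ) - 1 + 1 / 200000 = (k : ℝ) + 2 + 1 / 200000 := by
    push_cast
    ring
  rw [e]
  exact h

end Pool.Agent.Results.MP_5a6238_co.DegenerateExpansions
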